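import Pool.Agent.Lib.MP_a31e1e_gt.Interfaces

/-! Module DIFFEO of project TIGHT. -/

open scoped ContDiff Manifold Topology RealInnerProductSpace NNReal
open Set Metric

namespace Pool.Agent.Tight.H6

theorem diffeo : DiffeoStatement := by
  intro ψ hψ hd
  have hdiff : Differentiable ℝ ψ := hψ.differentiable (by simp)
  -- the map is Lipschitz close to the identity
  have happ : ApproximatesLinearOn ψ
      ((ContinuousLinearEquiv.refl ℝ E3 : E3 ≃L[ℝ] E3) : E3 →L[ℝ] E3) univ (1 / 2 : ℝ≥0) := by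
    intro x _ y _
    have h := (convex_univ (𝕜 := ℝ) (E := E3)).norm_image_sub_le_of_norm_hasFDerivWithin_le
      (f := fun z => ψ z - z) (f' := fun z => fderiv ℝ ψ z - ContinuousLinearMap.id ℝ E3)
      (C := 1 / 2) (s := univ) (x := y) (y := x)
      (fun z _ => ((hdiff z).hasFDerivAt.sub (hasFDerivAt_id z)).hasFDerivWithinAt)
      (fun z _ => hd z) (mem_univ _) (mem_univ _)
    have h2 : ψ x - ψ y - ((ContinuousLinearEquiv.refl ℝ E3 : E3 ≃L[ℝ] E3) : E3 →L[ℝ] E3) (x - y)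
        = ψ x - x - (ψ y - y) := by
      simp only [ContinuousLinearEquiv.coe_refl, ContinuousLinearMap.id_apply]
      abel
    rw [h2]
    simpa using h
  have hN : (1 / 2 : ℝ≥0) <
      ‖((ContinuousLinearEquiv.refl ℝ E3 : E3 ≃L[ℝ] E3).symm : E3 →L[ℝ] E3)‖₊⁻¹ := by
    have h1 : ‖((ContinuousLinearEquiv.refl ℝ E3 : E3 ≃L[ℝ] E3).symm : E3 →L[ℝ] E3)‖₊ = 1 := by
      have h0 : ((ContinuousLinearEquiv.refl ℝ E3 : E3 ≃L[ℝ] E3).symm : E3 →L[ℝ] E3)
          = ContinuousLinearMap.id ℝ E3 := by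
        ext; simp
      rw [h0]
      ext
      simp
    rw [h1, inv_one]
    exact one_half_lt_one
  let Φ : E3 ≃ₜ E3 := happ.toHomeomorph ψ (Or.inr hN)
  have hΦ : ∀ x, Φ x = ψ x := fun x => rfl
  have hunit : ∀ a, ∃ e : E3 ≃L[ℝ] E3, HasFDerivAt Φ (e : E3 →L[ℝ] E3) a := by
    intro a
    have ht : ‖(1 : E3 →L[ℝ] E3) - fderiv ℝ ψ a‖ < 1 := by
      rw [norm_sub_rev]
      exact lt_of_le_of_lt (hd a) (by norm_num)
    refine ⟨ContinuousLinearEquiv.unitsEquiv ℝ E3 (Units.oneSub _ ht), ?_⟩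
    have h3 : ((ContinuousLinearEquiv.unitsEquiv ℝ E3 (Units.oneSub _ ht) : E3 ≃L[ℝ] E3) :
        E3 →L[ℝ] E3) = fderiv ℝ ψ a := by
      ext1 x
      have h4 := ContinuousLinearEquiv.unitsEquiv_apply ℝ E3 (Units.oneSub _ ht) x
      rw [ContinuousLinearEquiv.coe_coe, h4]
      simp
    rw [h3]
    exact (hdiff a).hasFDerivAt
  choose e he using hunit
  refine ⟨Φ.symm, ?_, ?_, ?_⟩
  · exact Φ.contDiff_symm he (show ContDiff ℝ ∞ (Φ : E3 → E3) from hψ)
  · intro x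
    exact Φ.symm_apply_apply x
  · intro x
    exact Φ.apply_symm_apply x

end Pool.Agent.Tight.H6
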