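import Pool.Agent.Lib.MP_a31e1e_gt.Interfaces

/-! Module PSIB of project TIGHT. -/

open scoped ContDiff Manifold Topology RealInnerProductSpace
open Set Metric Filter

namespace Pool.Agent.Tight.H6

/-- the embedding of `E3` in `E3 × ℝ` -/
noncomputable abbrev jj : E3 →L[ℝ] E3 × ℝ := ContinuousLinearMap.inl ℝ E3 ℝ
/-- the embedding of `ℝ` in `E3 × ℝ` -/
noncomputable abbrev kk : ℝ →L[ℝ] E3 × ℝ := ContinuousLinearMap.inr ℝ E3 ℝ

theorem norm_jj : ‖jj‖ ≤ 1 := ContinuousLinearMap.norm_inl_le_one ℝ E3 ℝ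
theorem norm_kk : ‖kk‖ ≤ 1 := ContinuousLinearMap.norm_inr_le_one ℝ E3 ℝ

section general

variable {F : Type*} [NormedAddCommGroup F] [NormedSpace ℝ F]

/-- A smooth function is bounded on a compact subset of the domain. -/
theorem bdd {U L : Set (E3 × ℝ)} {h : E3 × ℝ → F} (hh : ContDiffOn ℝ ∞ h U)
    (hLU : L ⊆ U) (hL : IsCompact L) : ∃ C, 0 ≤ C ∧ ∀ p ∈ L, ‖h p‖ ≤ C := by
  obtain ⟨C, hC⟩ := hL.exists_bound_of_continuousOn (hh.continuousOn.mono hLU)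
  exact ⟨max C 0, le_max_right _ _, fun p hp => (hC p hp).trans (le_max_left _ _)⟩

theorem smooth_fderiv {U : Set (E3 × ℝ)} (hU : IsOpen U) {h : E3 × ℝ → F}
    (hh : ContDiffOn ℝ ∞ h U) : ContDiffOn ℝ ∞ (fderiv ℝ h) U :=
  hh.fderiv_of_isOpen hU (by simp)

/-- A smooth function vanishing for `γ = 0` is bounded by `C |γ|`. -/
theorem lin_bound {U : Set (E3 × ℝ)} (hU : IsOpen U) {h : E3 × ℝ → F}
    (hh : ContDiffOn ℝ ∞ h U) (h0 : ∀ x, (x, (0 : ℝ)) ∈ U → h (x, 0) = 0)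
    {K : Set E3} (hK : IsCompact K) {r : ℝ} (hr : 0 < r) (hKr : K ×ˢ closedBall (0 : ℝ) r ⊆ U) :
    ∃ C, 0 ≤ C ∧ ∀ x ∈ K, ∀ γ : ℝ, |γ| ≤ r → ‖h (x, γ)‖ ≤ C * |γ| := by
  obtain ⟨C, hC0, hC⟩ := bdd (smooth_fderiv hU hh) hKr (hK.prod (isCompact_closedBall _ _))
  refine ⟨C, hC0, fun x hx γ hγ => ?_⟩
  have hconv : Convex ℝ (({x} : Set E3) ×ˢ closedBall (0 : ℝ) r) :=
    (convex_singleton x).prod (convex_closedBall _ _)
  have hsub : (({x} : Set E3) ×ˢ closedBall (0 : ℝ) r) ⊆ K ×ˢ closedBall (0 : ℝ) r :=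
    prod_mono (singleton_subset_iff.2 hx) (Subset.refl _)
  have h1 := hconv.norm_image_sub_le_of_norm_hasFDerivWithin_le (f := h)
    (f' := fderiv ℝ h) (C := C) (x := (x, (0 : ℝ))) (y := (x, γ))
    (fun p hp => by
      have hpU : p ∈ U := hKr (hsub hp)
      exact ((hh.contDiffAt (hU.mem_nhds hpU)).differentiableAt
        (by simp)).hasFDerivAt.hasFDerivWithinAt)
    (fun p hp => hC p (hsub hp))
    (by simp [hr.le]) (by simpa using hγ)
  have hx0 : (x, (0 : ℝ)) ∈ U := hKr ⟨hx, by simpa using hr.le⟩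
  rw [h0 x hx0, sub_zero] at h1
  refine h1.trans (le_of_eq ?_)
  congr 1
  simp [Prod.norm_def]

/-- The `x`-derivative of a function vanishing for `γ = 0` vanishes for `γ = 0`. -/
theorem van {U : Set (E3 × ℝ)} (hU : IsOpen U) {h : E3 × ℝ → F}
    (hh : ContDiffOn ℝ ∞ h U) (h0 : ∀ x, (x, (0 : ℝ)) ∈ U → h (x, 0) = 0) (x : E3)
    (hx : (x, (0 : ℝ)) ∈ U) : (fderiv ℝ h (x, 0)).comp jj = 0 := by
  have hev : ∀ᶠ y in 𝓝 x, (y, (0 : ℝ)) ∈ U := by
    have hc : ContinuousAt (fun y : E3 => (y, (0 : ℝ))) x := by fun_prop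
    exact hc.preimage_mem_nhds (hU.mem_nhds hx)
  have h1 : HasFDerivAt (fun y : E3 => h (y, (0 : ℝ))) ((fderiv ℝ h (x, 0)).comp jj) x := by
    have h2 : HasFDerivAt h (fderiv ℝ h (x, 0)) (x, (0 : ℝ)) :=
      ((hh.contDiffAt (hU.mem_nhds hx)).differentiableAt (by simp)).hasFDerivAt
    have h3 : HasFDerivAt (fun y : E3 => (y, (0 : ℝ))) jj x := by
      have h4 := (hasFDerivAt_id (𝕜 := ℝ) x).prodMk (hasFDerivAt_const (𝕜 := ℝ) (0 : ℝ) x)
      refine h4.congr_fderiv ?_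
      ext v <;> simp
    exact h2.comp x h3
  have h5 : HasFDerivAt (fun y : E3 => h (y, (0 : ℝ))) (0 : E3 →L[ℝ] F) x := by
    refine (hasFDerivAt_const (𝕜 := ℝ) (0 : F) x).congr_of_eventuallyEq ?_
    filter_upwards [hev] with y hy
    exact h0 y hy
  exact h1.unique h5

theorem smooth_x {U : Set (E3 × ℝ)} (hU : IsOpen U) {h : E3 × ℝ → F}
    (hh : ContDiffOn ℝ ∞ h U) : ContDiffOn ℝ ∞ (fun p => (fderiv ℝ h p).comp jj) U :=
  (smooth_fderiv hU hh).clm_comp contDiffOn_const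

theorem smooth_g {U : Set (E3 × ℝ)} (hU : IsOpen U) {h : E3 × ℝ → F}
    (hh : ContDiffOn ℝ ∞ h U) : ContDiffOn ℝ ∞ (fun p => (fderiv ℝ h p).comp kk) U :=
  (smooth_fderiv hU hh).clm_comp contDiffOn_const

/-- derivative of `h (x, g x)` -/
theorem hasFDerivAt_graph {U : Set (E3 × ℝ)} (hU : IsOpen U) {h : E3 × ℝ → F}
    (hh : ContDiffOn ℝ ∞ h U) {g : E3 → ℝ} (hg : ContDiff ℝ ∞ g) (x : E3)
    (hx : (x, g x) ∈ U) : HasFDerivAt (fun y => h (y, g y))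
      ((fderiv ℝ h (x, g x)).comp jj + ((fderiv ℝ h (x, g x)).comp kk).comp (fderiv ℝ g x)) x := by
  have h2 : HasFDerivAt h (fderiv ℝ h (x, g x)) (x, g x) :=
    ((hh.contDiffAt (hU.mem_nhds hx)).differentiableAt (by simp)).hasFDerivAt
  have h3 : HasFDerivAt (fun y : E3 => (y, g y)) ((ContinuousLinearMap.id ℝ E3).prod
      (fderiv ℝ g x)) x :=
    (hasFDerivAt_id (𝕜 := ℝ) x).prodMk ((hg.differentiable (by simp)) x).hasFDerivAt
  have h4 := h2.comp x h3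
  refine h4.congr_fderiv ?_
  ext v
  simp only [ContinuousLinearMap.comp_apply, add_apply,
    ContinuousLinearMap.prod_apply, ContinuousLinearMap.inl_apply, ContinuousLinearMap.inr_apply,
    ContinuousLinearMap.id_apply]
  rw [← map_add]
  simp

end general

/-- The three norms for a product, on a set. -/
theorem mul_bounds {f g : E3 → ℝ} (hf : ContDiff ℝ ∞ f) (hg : ContDiff ℝ ∞ g) (x : E3)
    {a0 a1 a2 b0 b1 b2 : ℝ}
    (ha0 : ‖iteratedFDeriv ℝ 0 f x‖ ≤ a0) (ha1 : ‖iteratedFDeriv ℝ 1 f x‖ ≤ a1)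
    (ha2 : ‖iteratedFDeriv ℝ 2 f x‖ ≤ a2)
    (hb0 : ‖iteratedFDeriv ℝ 0 g x‖ ≤ b0) (hb1 : ‖iteratedFDeriv ℝ 1 g x‖ ≤ b1)
    (hb2 : ‖iteratedFDeriv ℝ 2 g x‖ ≤ b2) :
    ‖iteratedFDeriv ℝ 0 (fun y => f y * g y) x‖ ≤ a0 * b0 ∧
    ‖iteratedFDeriv ℝ 1 (fun y => f y * g y) x‖ ≤ a0 * b1 + a1 * b0 ∧
    ‖iteratedFDeriv ℝ 2 (fun y => f y * g y) x‖ ≤ a0 * b2 + 2 * a1 * b1 + a2 * b0 := by
  have A0 := (norm_nonneg _).trans ha0
  have A1 := (norm_nonneg _).trans ha1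
  have A2 := (norm_nonneg _).trans ha2
  have key : ∀ n : ℕ, ‖iteratedFDeriv ℝ n (fun y => f y * g y) x‖ ≤
      ∑ i ∈ Finset.range (n + 1), (n.choose i : ℝ) * ‖iteratedFDeriv ℝ i f x‖ *
        ‖iteratedFDeriv ℝ (n - i) g x‖ := fun n =>
    norm_iteratedFDeriv_mul_le hf hg x (by exact_mod_cast le_top)
  refine ⟨?_, ?_, ?_⟩
  · refine (key 0).trans ?_
    simp only [Finset.sum_range_succ, Finset.sum_range_zero, Nat.choose_zero_right, Nat.sub_zero,
      Nat.cast_one, zero_add, one_mul]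
    gcongr
  · refine (key 1).trans ?_
    simp only [Finset.sum_range_succ, Finset.sum_range_zero, Nat.choose_zero_right, Nat.sub_zero,
      Nat.cast_one, zero_add, one_mul, Nat.choose_self]
    gcongr
  · refine (key 2).trans ?_
    simp only [Finset.sum_range_succ, Finset.sum_range_zero, Nat.choose_zero_right, Nat.sub_zero,
      Nat.cast_one, zero_add, one_mul, Nat.choose_self, Nat.choose_one_right,
      Nat.reduceSub, Nat.cast_ofNat]
    gcongr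

/-- smooth functions have bounded derivatives on compact sets -/
theorem bdd_iter {f : E3 → ℝ} (hf : ContDiff ℝ ∞ f) {K : Set E3} (hK : IsCompact K) :
    ∃ M, 0 ≤ M ∧ ∀ x ∈ K, ∀ k ≤ 2, ‖iteratedFDeriv ℝ k f x‖ ≤ M := by
  have h : ∀ k : ℕ, ∃ C, ∀ x ∈ K, ‖iteratedFDeriv ℝ k f x‖ ≤ C := fun k =>
    hK.exists_bound_of_continuousOn
      (hf.continuous_iteratedFDeriv (by exact_mod_cast le_top)).continuousOn
  choose C hC using h
  refine ⟨max (max (C 0) (C 1)) (max (C 2) 0), by positivity, fun x hx k hk => ?_⟩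
  interval_cases k
  · exact (hC 0 x hx).trans ((le_max_left _ _).trans (le_max_left _ _))
  · exact (hC 1 x hx).trans ((le_max_right _ _).trans (le_max_left _ _))
  · exact (hC 2 x hx).trans ((le_max_left _ _).trans (le_max_right _ _))

/-- the weight `ϖ³` and its derivatives are bounded by `W ϖ` on a compact set -/
theorem cube_bounds {ϖ : E3 → ℝ} (hϖ : ContDiff ℝ ∞ ϖ) (h0 : ∀ x, 0 ≤ ϖ x) {K : Set E3}
    (hK : IsCompact K) : ∃ W, 0 ≤ W ∧ ∀ x ∈ K, ϖ x ≤ W ∧ ∀ k ≤ 2,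
      ‖iteratedFDeriv ℝ k (fun y => ϖ y ^ 3) x‖ ≤ W * ϖ x := by
  obtain ⟨M, hM, hb⟩ := bdd_iter hϖ hK
  refine ⟨M + 9 * M ^ 2, by positivity, fun x hx => ?_⟩
  have hb0 : ‖iteratedFDeriv ℝ 0 ϖ x‖ ≤ ϖ x := by
    rw [norm_iteratedFDeriv_zero, Real.norm_of_nonneg (h0 x)]
  have hM0 : ϖ x ≤ M := by
    have := hb x hx 0 (by norm_num)
    rwa [norm_iteratedFDeriv_zero, Real.norm_of_nonneg (h0 x)] at this
  have hw := h0 x
  obtain ⟨s0, s1, s2⟩ := mul_bounds hϖ hϖ x hb0 (hb x hx 1 (by norm_num)) (hb x hx 2 le_rfl)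
    hb0 (hb x hx 1 (by norm_num)) (hb x hx 2 le_rfl)
  obtain ⟨t0, t1, t2⟩ := mul_bounds (hϖ.mul hϖ) hϖ x s0 s1 s2
    hb0 (hb x hx 1 (by norm_num)) (hb x hx 2 le_rfl)
  have e : (fun y => ϖ y ^ 3) = (fun y => ϖ y * ϖ y * ϖ y) := by
    funext y; ring
  have k1 : ϖ x * ϖ x ≤ M * ϖ x := by gcongr
  have k2 : ϖ x * ϖ x * ϖ x ≤ M ^ 2 * ϖ x := by
    calc ϖ x * ϖ x * ϖ x ≤ M * M * ϖ x := by gcongr
      _ = M ^ 2 * ϖ x := by ring
  have k3 : ϖ x * ϖ x * M ≤ M ^ 2 * ϖ x := by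
    calc ϖ x * ϖ x * M ≤ M * ϖ x * M := by gcongr
      _ = M ^ 2 * ϖ x := by ring
  have k4 : 0 ≤ M * ϖ x := by positivity
  have k5 : 0 ≤ M ^ 2 * ϖ x := by positivity
  refine ⟨hM0.trans (by nlinarith), fun k hk => ?_⟩
  rw [e]
  interval_cases k
  · refine t0.trans ?_
    nlinarith
  · refine t1.trans ?_
    nlinarith
  · refine t2.trans ?_
    nlinarith

theorem norm_clm_bound {E F G H : Type*} [NormedAddCommGroup E] [NormedSpace ℝ E]
    [NormedAddCommGroup F] [NormedSpace ℝ F] [NormedAddCommGroup G] [NormedSpace ℝ G]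
    [NormedAddCommGroup H] [NormedSpace ℝ H] (c : G →L[ℝ] H) (d : F →L[ℝ] G)
    (c' : E →L[ℝ] (G →L[ℝ] H)) (d' : E →L[ℝ] (F →L[ℝ] G)) :
    ‖(ContinuousLinearMap.compL ℝ F G H c).comp d' +
      ((ContinuousLinearMap.compL ℝ F G H).flip d).comp c'‖ ≤ ‖c‖ * ‖d'‖ + ‖d‖ * ‖c'‖ := by
  refine ContinuousLinearMap.opNorm_le_bound _ (by positivity) fun e => ?_
  have h1 : ((ContinuousLinearMap.compL ℝ F G H c).comp d' +
      ((ContinuousLinearMap.compL ℝ F G H).flip d).comp c') e = c.comp (d' e) + (c' e).comp d := by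
    rfl
  rw [h1]
  have h2 : ‖c.comp (d' e)‖ ≤ ‖c‖ * (‖d'‖ * ‖e‖) :=
    (ContinuousLinearMap.opNorm_comp_le _ _).trans (by gcongr; exact d'.le_opNorm e)
  have h3 : ‖(c' e).comp d‖ ≤ (‖c'‖ * ‖e‖) * ‖d‖ :=
    (ContinuousLinearMap.opNorm_comp_le _ _).trans (by gcongr; exact c'.le_opNorm e)
  calc _ ≤ ‖c.comp (d' e)‖ + ‖(c' e).comp d‖ := ContinuousLinearMap.opNorm_add_le _ _
    _ ≤ ‖c‖ * (‖d'‖ * ‖e‖) + (‖c'‖ * ‖e‖) * ‖d‖ := add_le_add h2 h3
    _ = _ := by ring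

theorem psiBounds : PsiBoundsStatement := by
  intro U Y ϖ K hU hY hK hKU hY0 hϖ hϖ0 ε hε
  -- the tube
  obtain ⟨r, hr, hKr⟩ : ∃ r > 0, K ×ˢ closedBall (0 : ℝ) r ⊆ U := by
    have hsub : K ×ˢ ({0} : Set ℝ) ⊆ U := by
      rintro ⟨x, γ⟩ ⟨hx, hγ⟩
      rw [mem_singleton_iff] at hγ
      simp only at hγ hx
      subst hγ
      exact hKU x hx
    obtain ⟨u, v, hu, hv, hKu, h0v, huv⟩ := generalized_tube_lemma hK isCompact_singleton hU hsub
    obtain ⟨r, hr, hrv⟩ := Metric.nhds_basis_closedBall.mem_iff.1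
      (hv.mem_nhds (h0v (mem_singleton _)))
    exact ⟨r, hr, (prod_mono hKu hrv).trans huv⟩
  have hLc : IsCompact (K ×ˢ closedBall (0 : ℝ) r) := hK.prod (isCompact_closedBall _ _)
  -- derivatives of `Y`
  have hA := smooth_fderiv hU hY
  have hA1 := smooth_x hU hY
  have hA2 := smooth_g hU hY
  obtain ⟨C0, hC0, hY0b⟩ := lin_bound hU hY hY0 hK hr hKr
  obtain ⟨C1, hC1, hA1b⟩ := lin_bound hU hA1 (fun x hx => van hU hY hY0 x hx) hK hr hKr
  obtain ⟨C2, hC2, hB1b⟩ := lin_bound hU (smooth_x hU hA1)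
    (fun x hx => van hU hA1 (fun x hx => van hU hY hY0 x hx) x hx) hK hr hKr
  obtain ⟨C3, hC3, hA2b⟩ := bdd hA2 hKr hLc
  obtain ⟨C4, hC4, hB2b⟩ := bdd (smooth_g hU hA1) hKr hLc
  obtain ⟨C5, hC5, hB3b⟩ := bdd (smooth_x hU hA2) hKr hLc
  obtain ⟨C6, hC6, hB4b⟩ := bdd (smooth_g hU hA2) hKr hLc
  obtain ⟨W, hW, hWb⟩ := cube_bounds hϖ hϖ0 hK
  set T : ℝ := W * (C0 + C1 + C2 + 4 * C3 + 2 * C3 + 2 * C4 + 2 * C5 + C6 * (4 * W ^ 2)) with hT
  have hT0 : 0 ≤ T := by positivity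
  set δ : ℝ := min 1 (min (r / (W ^ 2 + 1)) (ε / (T + 1))) with hδ
  have hδ0 : 0 < δ := by positivity
  have hδ1 : δ ≤ 1 := min_le_left _ _
  have hδr : W ^ 2 * δ ≤ r := by
    have h1 : δ ≤ r / (W ^ 2 + 1) := (min_le_right _ _).trans (min_le_left _ _)
    rw [le_div_iff₀ (by positivity)] at h1
    nlinarith
  have hδε : T * δ ≤ ε := by
    have h1 : δ ≤ ε / (T + 1) := (min_le_right _ _).trans (min_le_right _ _)
    rw [le_div_iff₀ (by positivity)] at h1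
    nlinarith
  refine ⟨δ, hδ0, fun E hE hEK hEδ => ?_⟩
  set g : E3 → ℝ := fun x => ϖ x ^ 3 * E x with hgdef
  have hw3 : ContDiff ℝ ∞ (fun y => ϖ y ^ 3) := hϖ.pow 3
  have hg : ContDiff ℝ ∞ g := hw3.mul hE
  have hgb : ∀ x ∈ K, |g x| ≤ W * ϖ x * δ ∧ ‖fderiv ℝ g x‖ ≤ 2 * (W * ϖ x * δ) ∧
      ‖fderiv ℝ (fderiv ℝ g) x‖ ≤ 4 * (W * ϖ x * δ) := by
    intro x hx
    obtain ⟨g0, g1, g2⟩ := mul_bounds hw3 hE x ((hWb x hx).2 0 (by norm_num))
      ((hWb x hx).2 1 (by norm_num)) ((hWb x hx).2 2 le_rfl) (hEδ x 0 (by norm_num))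
      (hEδ x 1 (by norm_num)) (hEδ x 2 le_rfl)
    refine ⟨?_, ?_, ?_⟩
    · rw [norm_iteratedFDeriv_zero] at g0
      exact g0
    · rw [← norm_iteratedFDeriv_fderiv, norm_iteratedFDeriv_zero] at g1
      refine g1.trans (le_of_eq ?_)
      ring
    · rw [← norm_iteratedFDeriv_fderiv, ← norm_iteratedFDeriv_fderiv,
        norm_iteratedFDeriv_zero] at g2
      refine g2.trans (le_of_eq ?_)
      ring
  have hgr : ∀ x ∈ K, |g x| ≤ r := by
    intro x hx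
    refine (hgb x hx).1.trans (le_trans ?_ hδr)
    have := (hWb x hx).1
    calc W * ϖ x * δ ≤ W * W * δ := by gcongr
      _ = W ^ 2 * δ := by ring
  have hgL : ∀ x ∈ K, (x, g x) ∈ K ×ˢ closedBall (0 : ℝ) r := fun x hx =>
    ⟨hx, by simpa using hgr x hx⟩
  have hgU : ∀ x ∈ K, (x, g x) ∈ U := fun x hx => hKr (hgL x hx)
  have hg0 : ∀ x, x ∉ K → g x = 0 := by
    intro x hx
    have : E x = 0 := by
      by_contra h
      exact hx (hEK (subset_tsupport _ h))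
    simp [hgdef, this]
  classical
  set Z : E3 → E3 := fun x => if x ∈ K then Y (x, g x) else 0 with hZdef
  have hUev : ∀ x ∈ K, ∀ᶠ y in 𝓝 x, (y, g y) ∈ U := by
    intro x hx
    have hc : ContinuousAt (fun y : E3 => (y, g y)) x :=
      continuousAt_id.prodMk hg.continuous.continuousAt
    exact hc.preimage_mem_nhds (hU.mem_nhds (hgU x hx))
  have hZev : ∀ x ∈ K, Z =ᶠ[𝓝 x] fun y => Y (y, g y) := by
    intro x hx
    filter_upwards [hUev x hx] with y hy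
    by_cases hyK : y ∈ K
    · simp [hZdef, hyK]
    · rw [hg0 y hyK] at hy ⊢
      simp [hZdef, hyK, hY0 y hy]
  have hZout : ∀ x, x ∉ K → Z =ᶠ[𝓝 x] fun _ => (0 : E3) := by
    intro x hx
    filter_upwards [hK.isClosed.isOpen_compl.mem_nhds hx] with y hy
    have : y ∉ K := hy
    simp [hZdef, this]
  -- first derivative
  have hd1 : ∀ x ∈ K, fderiv ℝ Z x = (fderiv ℝ Y (x, g x)).comp jj +
      ((fderiv ℝ Y (x, g x)).comp kk).comp (fderiv ℝ g x) := by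
    intro x hx
    rw [(hZev x hx).fderiv_eq]
    exact (hasFDerivAt_graph hU hY hg x (hgU x hx)).fderiv
  have hd1ev : ∀ x ∈ K, fderiv ℝ Z =ᶠ[𝓝 x] fun y => (fderiv ℝ Y (y, g y)).comp jj +
      ((fderiv ℝ Y (y, g y)).comp kk).comp (fderiv ℝ g y) := by
    intro x hx
    filter_upwards [hUev x hx, (hZev x hx).eventuallyEq_nhds] with y hy hy2
    rw [hy2.fderiv_eq]
    exact (hasFDerivAt_graph hU hY hg y hy).fderiv
  have hZs : ContDiff ℝ ∞ Z := by
    rw [contDiff_iff_contDiffAt]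
    intro x
    by_cases hx : x ∈ K
    · refine ContDiffAt.congr_of_eventuallyEq ?_ (hZev x hx)
      have h1 : ContDiffAt ℝ ∞ Y (x, g x) := hY.contDiffAt (hU.mem_nhds (hgU x hx))
      exact h1.comp x (contDiffAt_id.prodMk hg.contDiffAt)
    · exact contDiffAt_const.congr_of_eventuallyEq (hZout x hx)
  have hd1out : ∀ x, x ∉ K → fderiv ℝ Z x = 0 := by
    intro x hx
    rw [(hZout x hx).fderiv_eq]
    simp
  -- second derivative
  have hd2 : ∀ x ∈ K, ‖fderiv ℝ (fderiv ℝ Z) x‖ ≤ T * ϖ x * δ := by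
    intro x hx
    have hp := hϖ0 x
    obtain ⟨q0, q1, q2⟩ := hgb x hx
    have q3 : ‖fderiv ℝ g x‖ ≤ 2 * W ^ 2 := by
      refine q1.trans ?_
      have := (hWb x hx).1
      calc 2 * (W * ϖ x * δ) ≤ 2 * (W * W * 1) := by gcongr
        _ = 2 * W ^ 2 := by ring
    have h1 := hasFDerivAt_graph hU hA1 hg x (hgU x hx)
    have h2 := hasFDerivAt_graph hU hA2 hg x (hgU x hx)
    have h3 : HasFDerivAt (fderiv ℝ g) (fderiv ℝ (fderiv ℝ g) x) x :=
      (((hg.fderiv_right (m := ∞) (by simp)).differentiable (by simp)) x).hasFDerivAt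
    have h4 := h2.clm_comp h3
    have h5 := (h1.add h4).congr_of_eventuallyEq (hd1ev x hx)
    rw [h5.fderiv]
    have n1 := hB1b x hx (g x) (hgr x hx)
    have n2 := hB2b _ (hgL x hx)
    have n3 := hB3b _ (hgL x hx)
    have n4 := hB4b _ (hgL x hx)
    have n5 := hA2b _ (hgL x hx)
    refine (ContinuousLinearMap.opNorm_add_le _ _).trans ?_
    have m1 : ‖(fderiv ℝ (fun p => (fderiv ℝ Y p).comp jj) (x, g x)).comp jj +
        ((fderiv ℝ (fun p => (fderiv ℝ Y p).comp jj) (x, g x)).comp kk).comp (fderiv ℝ g x)‖ ≤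
        C2 * (W * ϖ x * δ) + C4 * (2 * (W * ϖ x * δ)) := by
      refine (norm_add_le _ _).trans (add_le_add (n1.trans (by gcongr)) ?_)
      exact (ContinuousLinearMap.opNorm_comp_le _ _).trans (by gcongr)
    have m2 : ‖(fderiv ℝ (fun p => (fderiv ℝ Y p).comp kk) (x, g x)).comp jj +
        ((fderiv ℝ (fun p => (fderiv ℝ Y p).comp kk) (x, g x)).comp kk).comp (fderiv ℝ g x)‖ ≤
        C5 + C6 * (2 * W ^ 2) := by
      refine (norm_add_le _ _).trans (add_le_add n3 ?_)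
      exact (ContinuousLinearMap.opNorm_comp_le _ _).trans (by gcongr)
    have m3 := norm_clm_bound ((fderiv ℝ Y (x, g x)).comp kk) (fderiv ℝ g x)
      ((fderiv ℝ (fun p => (fderiv ℝ Y p).comp kk) (x, g x)).comp jj +
        ((fderiv ℝ (fun p => (fderiv ℝ Y p).comp kk) (x, g x)).comp kk).comp (fderiv ℝ g x))
      (fderiv ℝ (fderiv ℝ g) x)
    refine (add_le_add m1 m3).trans ?_
    have m4 : ‖(fderiv ℝ Y (x, g x)).comp kk‖ * ‖fderiv ℝ (fderiv ℝ g) x‖ ≤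
        C3 * (4 * (W * ϖ x * δ)) := by gcongr
    have m5 : ‖fderiv ℝ g x‖ * ‖(fderiv ℝ (fun p => (fderiv ℝ Y p).comp kk) (x, g x)).comp jj +
        ((fderiv ℝ (fun p => (fderiv ℝ Y p).comp kk) (x, g x)).comp kk).comp (fderiv ℝ g x)‖ ≤
        (2 * (W * ϖ x * δ)) * (C5 + C6 * (2 * W ^ 2)) := by gcongr
    refine (add_le_add le_rfl (add_le_add m4 m5)).trans ?_
    rw [hT]
    have : 0 ≤ W * (C0 + C1 + 2 * C3) * ϖ x * δ := by positivity
    nlinarith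
  have hd2out : ∀ x, x ∉ K → fderiv ℝ (fderiv ℝ Z) x = 0 := by
    intro x hx
    have h1 : fderiv ℝ Z =ᶠ[𝓝 x] fun _ => 0 := by
      filter_upwards [hK.isClosed.isOpen_compl.mem_nhds hx] with y hy
      exact hd1out y hy
    rw [h1.fderiv_eq]
    simp
  have hψd : ∀ x, fderiv ℝ (fun x => x + Z x) x = ContinuousLinearMap.id ℝ E3 + fderiv ℝ Z x := by
    intro x
    exact ((hasFDerivAt_id (𝕜 := ℝ) x).add ((hZs.differentiable (by simp)) x).hasFDerivAt).fderiv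
  have hfin : ∀ x, T * ϖ x * δ ≤ ε * ϖ x := by
    intro x
    have := hϖ0 x
    nlinarith
  refine ⟨fun x => x + Z x, contDiff_id.add hZs, ?_, ?_, ?_, ?_, ?_, ?_⟩
  · intro x hx
    simp [hZdef, hx]
  · intro x hx
    exact ⟨hgU x hx, by simp [hZdef, hx, hgdef]⟩
  · intro x
    rw [add_sub_cancel_left]
    refine le_trans ?_ (hfin x)
    by_cases hx : x ∈ K
    · have h1 := hY0b x hx (g x) (hgr x hx)
      have h2 := (hgb x hx).1
      have h3 : Z x = Y (x, g x) := by simp [hZdef, hx]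
      rw [h3]
      refine h1.trans ?_
      have hp := hϖ0 x
      calc C0 * |g x| ≤ C0 * (W * ϖ x * δ) := by gcongr
        _ ≤ T * ϖ x * δ := by
          rw [hT]
          have : 0 ≤ W * (C1 + C2 + 4 * C3 + 2 * C3 + 2 * C4 + 2 * C5 + C6 * (4 * W ^ 2)) *
            ϖ x * δ := by positivity
          nlinarith
    · have h3 : Z x = 0 := by simp [hZdef, hx]
      rw [h3, norm_zero]
      have hp := hϖ0 x
      positivity
  · intro x
    rw [hψd, add_sub_cancel_left]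
    refine le_trans ?_ (hfin x)
    have hp := hϖ0 x
    by_cases hx : x ∈ K
    · rw [hd1 x hx]
      have h1 := hA1b x hx (g x) (hgr x hx)
      have h2 := hA2b _ (hgL x hx)
      obtain ⟨h3, h4, -⟩ := hgb x hx
      calc _ ≤ ‖(fderiv ℝ Y (x, g x)).comp jj‖ +
            ‖((fderiv ℝ Y (x, g x)).comp kk).comp (fderiv ℝ g x)‖ := norm_add_le _ _
        _ ≤ C1 * |g x| + ‖(fderiv ℝ Y (x, g x)).comp kk‖ * ‖fderiv ℝ g x‖ :=
          add_le_add h1 (ContinuousLinearMap.opNorm_comp_le _ _)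
        _ ≤ C1 * (W * ϖ x * δ) + C3 * (2 * (W * ϖ x * δ)) := by gcongr
        _ ≤ T * ϖ x * δ := by
          rw [hT]
          have : 0 ≤ W * (C0 + C2 + 2 * C3 + 2 * C3 + 2 * C4 + 2 * C5 + C6 * (4 * W ^ 2)) *
            ϖ x * δ := by positivity
          nlinarith
    · rw [hd1out x hx, norm_zero]
      positivity
  · intro x
    have he : fderiv ℝ (fun x => x + Z x) = fun x => ContinuousLinearMap.id ℝ E3 + fderiv ℝ Z x :=
      funext hψd
    rw [he, fderiv_const_add]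
    refine le_trans ?_ (hfin x)
    by_cases hx : x ∈ K
    · exact hd2 x hx
    · rw [hd2out x hx]
      have hp := hϖ0 x
      refine (le_of_eq ContinuousLinearMap.opNorm_zero).trans ?_
      positivity
  · refine ⟨C0 * δ, fun x => ?_⟩
    rw [add_sub_cancel_left]
    have hp := hϖ0 x
    by_cases hx : x ∈ K
    · have h1 := hY0b x hx (g x) (hgr x hx)
      have h3 : Z x = Y (x, g x) := by simp [hZdef, hx]
      rw [h3]
      refine h1.trans ?_
      have h4 : |g x| ≤ ϖ x ^ 3 * δ := by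
        have h5 := hEδ x 0 (by norm_num)
        rw [norm_iteratedFDeriv_zero, Real.norm_eq_abs] at h5
        simp only [hgdef]
        rw [abs_mul, abs_of_nonneg (by positivity : 0 ≤ ϖ x ^ 3)]
        gcongr
      calc C0 * |g x| ≤ C0 * (ϖ x ^ 3 * δ) := by gcongr
        _ = C0 * δ * ϖ x ^ 3 := by ring
    · have h3 : Z x = 0 := by simp [hZdef, hx]
      rw [h3, norm_zero]
      positivity

end Pool.Agent.Tight.H6
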