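import Pool.Agent.Lib.MP_a31e1e_gt.CWDefs

/-! Module CWCODE of project TIGHT. -/

open scoped ContDiff Manifold Topology RealInnerProductSpace
open Set Metric Filter

namespace Pool.Agent.Tight.H6.Code

theorem tt_eq (x : E3) : tt x = 4 * (ell 0 x * ell 1 x * ell 2 x) := by
  have h : (√3 : ℝ) ^ 2 = 3 := Real.sq_sqrt (by norm_num)
  simp only [tt, nn, cc, ell]
  linear_combination ((1 - x 1) * x 0 ^ 2) * h

theorem lift_snd (x : E3) (w : ℝ) : (lift x w).2 = 0 := rfl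
theorem lift_two (x : E3) (w : ℝ) : (lift x w).1 2 = w := rfl
theorem nn_lift (x : E3) (w : ℝ) : nn (lift x w).1 = nn x := rfl
theorem tt_lift (x : E3) (w : ℝ) : tt (lift x w).1 = tt x := rfl
theorem mm_lift (x : E3) (w : ℝ) : mm (lift x w).1 = w ^ 2 + 3 * nn x - 9 := rfl
theorem ell_lift (j : Fin 3) (x : E3) (w : ℝ) : ell j (lift x w).1 = ell j x := by
  fin_cases j <;> rfl
theorem FS_lift (x : E3) (w : ℝ) : FS (lift x w).1 = (w ^ 2 + 3 * nn x - 9) ^ 2 - 16 * tt x := rfl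

theorem FS_zero {x : E3} {w ε : ℝ} (hε : ε = 1 ∨ ε = -1) (ht : 0 ≤ tt x)
    (hw : w ^ 2 = 9 - 3 * nn x + ε * (4 * √(tt x))) : FS (lift x w).1 = 0 := by
  rw [FS_lift, hw]
  have h := Real.sq_sqrt ht
  rcases hε with rfl | rfl
  · linear_combination 16 * h
  · linear_combination 16 * h

/-! ### Rays -/

theorem ell_ray (t : ℝ) (i j : Fin 3) : ell i (t • ev j) = if i = j then 1 - t else 1 + t / 2 := by
  have h : (√3 : ℝ) * √3 = 3 := Real.mul_self_sqrt (by norm_num)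
  fin_cases j <;> fin_cases i <;> simp [ell, ev, pl] <;>
    (try first
      | ring1
      | linear_combination (-t / 4) * h
      | linear_combination (t / 2) * h)

theorem nn_ray (t : ℝ) (j : Fin 3) : nn (t • ev j) = t ^ 2 := by
  have h : (√3 : ℝ) * √3 = 3 := Real.mul_self_sqrt (by norm_num)
  fin_cases j <;> simp [nn, ev, pl] <;> (try nlinarith)

theorem tt_ray (t : ℝ) (j : Fin 3) : tt (t • ev j) = (1 - t) * (2 + t) ^ 2 := by
  rw [tt_eq]
  simp only [ell_ray]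
  fin_cases j <;> simp <;> ring

theorem inSeg_ray {t : ℝ} (ht : 0 < t) (j : Fin 3) (w : ℝ) :
    InSeg j (lift (t • ev j) w).1 := by
  intro i hi
  simp only [ell_lift, ell_ray]
  have h2 : i + (i - j) ≠ j := by
    revert hi; revert i j; decide
  rw [if_pos trivial, if_neg hi, if_neg h2]
  exact ⟨by linarith, rfl⟩

theorem sheet_sq (i : Fin 4) (x : E3) (h1 : 0 ≤ qo x) (h2 : 0 ≤ qq x) :
    sheet i x ^ 2 = if i = 0 ∨ i = 1 then qo x else qq x := by
  fin_cases i <;> simp [sheet, Real.sq_sqrt h1, Real.sq_sqrt h2]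

theorem FS_outer (x : E3) (w : ℝ) (ht : 0 ≤ tt x) (hw : w ^ 2 = qo x) : FS (lift x w).1 = 0 :=
  FS_zero (Or.inl rfl) ht (by rw [hw, qo]; ring)
theorem FS_inner (x : E3) (w : ℝ) (ht : 0 ≤ tt x) (hw : w ^ 2 = qq x) : FS (lift x w).1 = 0 :=
  FS_zero (Or.inr rfl) ht (by rw [hw, qq]; ring)

theorem mm_outer (x : E3) (w : ℝ) (hw : w ^ 2 = qo x) : mm (lift x w).1 = 4 * √(tt x) := by
  rw [mm_lift, hw, qo]; ring
theorem mm_inner (x : E3) (w : ℝ) (hw : w ^ 2 = qq x) : mm (lift x w).1 = -(4 * √(tt x)) := by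
  rw [mm_lift, hw, qq]; ring

theorem qo_ray_pos {t : ℝ} (ht0 : 0 ≤ t) (ht1 : t ≤ 1) (j : Fin 3) : 0 < qo (t • ev j) := by
  rw [qo, nn_ray]
  have := Real.sqrt_nonneg (tt (t • ev j))
  nlinarith

theorem qq_ray_pos {t : ℝ} (ht0 : 0 ≤ t) (ht1 : t ≤ 1) (j : Fin 3) : 0 < qq (t • ev j) := by
  rw [qq, nn_ray]
  have h1 : √(tt (t • ev j)) < (9 - 3 * t ^ 2) / 4 := by
    rw [Real.sqrt_lt' (by nlinarith), tt_ray]
    nlinarith [pow_nonneg ht0 3, pow_nonneg ht0 4, mul_nonneg ht0 (sub_nonneg.2 ht1)]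
  linarith

theorem tt_ray_nonneg {t : ℝ} (ht1 : t ≤ 1) (j : Fin 3) : 0 ≤ tt (t • ev j) := by
  rw [tt_ray]
  have : 0 ≤ 1 - t := by linarith
  positivity
theorem tt_ray_pos {t : ℝ} (ht0 : 0 ≤ t) (ht1 : t < 1) (j : Fin 3) : 0 < tt (t • ev j) := by
  rw [tt_ray]
  have : 0 < 1 - t := by linarith
  positivity

/-- the sheets over a ray -/
theorem onSheet_ray {t : ℝ} (ht0 : 0 ≤ t) (ht1 : t < 1) (i : Fin 3) (j : Fin 3) :
    FS (onSheet i.castSucc (t • ev j)).1 = 0 ∧ OnSh i (onSheet i.castSucc (t • ev j)).1 := by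
  have h1 := qo_ray_pos ht0 ht1.le j
  have h2 := qq_ray_pos ht0 ht1.le j
  have h3 := tt_ray_pos ht0 ht1 j
  have h4 := Real.sqrt_pos.2 h3
  fin_cases i
  · have e : (onSheet (Fin.castSucc 0) (t • ev j)) = lift (t • ev j) (√(qo (t • ev j))) := rfl
    have hw : √(qo (t • ev j)) ^ 2 = qo (t • ev j) := Real.sq_sqrt h1.le
    show FS (onSheet (Fin.castSucc 0) (t • ev j)).1 = 0 ∧
      (0 < mm (onSheet (Fin.castSucc 0) (t • ev j)).1 ∧
        0 < (onSheet (Fin.castSucc 0) (t • ev j)).1 2)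
    rw [e, mm_outer _ _ hw, lift_two]
    exact ⟨FS_outer _ _ h3.le hw, by linarith, Real.sqrt_pos.2 h1⟩
  · have e : (onSheet (Fin.castSucc 1) (t • ev j)) = lift (t • ev j) (-√(qo (t • ev j))) := rfl
    have hw : (-√(qo (t • ev j))) ^ 2 = qo (t • ev j) := by
      rw [neg_sq]; exact Real.sq_sqrt h1.le
    show FS (onSheet (Fin.castSucc 1) (t • ev j)).1 = 0 ∧
      (0 < mm (onSheet (Fin.castSucc 1) (t • ev j)).1 ∧
        (onSheet (Fin.castSucc 1) (t • ev j)).1 2 < 0)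
    rw [e, mm_outer _ _ hw, lift_two]
    exact ⟨FS_outer _ _ h3.le hw, by linarith, neg_lt_zero.2 (Real.sqrt_pos.2 h1)⟩
  · have e : (onSheet (Fin.castSucc 2) (t • ev j)) = lift (t • ev j) (√(qq (t • ev j))) := rfl
    have hw : √(qq (t • ev j)) ^ 2 = qq (t • ev j) := Real.sq_sqrt h2.le
    show FS (onSheet (Fin.castSucc 2) (t • ev j)).1 = 0 ∧
      (mm (onSheet (Fin.castSucc 2) (t • ev j)).1 < 0 ∧
        0 < (onSheet (Fin.castSucc 2) (t • ev j)).1 2)
    rw [e, mm_inner _ _ hw, lift_two]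
    exact ⟨FS_inner _ _ h3.le hw, by linarith, Real.sqrt_pos.2 h2⟩

theorem mem_ball_one {n : ℕ} {y : Fin n → ℝ} (hy : y ∈ ball (0 : Fin n → ℝ) 1) (i : Fin n) :
    |y i| < 1 := by
  rw [mem_ball_zero_iff] at hy
  exact (norm_le_pi_norm y i).trans_lt hy

/-- common part for the wedges -/
theorem wedge_facts (hK : KiteStatement) (hA : ArcStatement) {ρ : ℝ} (hρ : 0 < ρ)
    (hρ' : ρ ≤ 1 / 100) (o : Bool) (k : Fin 3) {β s : ℝ} (h0 : 0 ≤ β) (h1 : β ≤ 1)
    (hs : |s| < 1) : ∃ σ w : ℝ, wedge ρ o k β s = lift (kp k β σ) w ∧ 0 < σ ∧ σ < far β ∧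
      (o = false → s < 0 → σ < farC ρ β) ∧ (0 ≤ s → 0 ≤ w) ∧
      w ^ 2 = (if o then qo (kp k β σ) else qq (kp k β σ)) ∧ 0 ≤ tt (kp k β σ) := by
  obtain ⟨k1, k2, k3, k4, k5, k6, k7⟩ := hK
  obtain ⟨a1, a2, a3⟩ := hA
  obtain ⟨-, -, c1, c2, c3⟩ := a3 ρ hρ hρ'
  have hε : (if o then (1 : ℝ) else -1) = 1 ∨ (if o then (1 : ℝ) else -1) = -1 := by
    cases o <;> simp
  obtain ⟨-, b1⟩ := a1 _ hε
  obtain ⟨b2, b3, b4⟩ := b1 β h0 h1
  obtain ⟨f1, f2⟩ := k6 β h0 h1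
  obtain ⟨g1, g2⟩ := c1 β h0 h1
  set ε : ℝ := if o then (1 : ℝ) else -1 with hεd
  set f : ℝ := if o = false ∧ s < 0 then farC ρ β else far β with hf
  have hf1 : 3 / 2 ≤ f := by rw [hf]; split_ifs <;> assumption
  have hf2 : f ≤ far β := by
    rw [hf]; split_ifs
    · exact g2
    · exact le_rfl
  set σ : ℝ := arc ε β + |s| * (f - arc ε β) with hσ
  have hpos : 0 < f - arc ε β := by linarith
  have hσ1 : arc ε β ≤ σ := by
    have : 0 ≤ |s| * (f - arc ε β) := by positivity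
    linarith
  have hσ2 : σ < f := by
    have : |s| * (f - arc ε β) < 1 * (f - arc ε β) := by
      exact mul_lt_mul_of_pos_right hs hpos
    linarith
  have hσ0 : 0 < σ := by linarith
  have hq : 0 ≤ qW ε β σ := by
    obtain ⟨m1, m2⟩ := b4 σ hσ0.le (by linarith)
    rcases eq_or_lt_of_le hσ1 with h | h
    · exact (m2.2 h.symm).ge
    · exact (m1.2 h).le
  refine ⟨σ, (if s < 0 then -1 else 1) * √(qW ε β σ), rfl, hσ0, by linarith, ?_, ?_, ?_, ?_⟩
  · intro ho hs0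
    have : f = farC ρ β := by rw [hf, if_pos ⟨ho, hs0⟩]
    rw [← this]; exact hσ2
  · intro hs0
    rw [if_neg (not_lt.2 hs0), one_mul]
    exact Real.sqrt_nonneg _
  · have hsq : ((if s < 0 then (-1 : ℝ) else 1) * √(qW ε β σ)) ^ 2 = qW ε β σ := by
      rw [mul_pow, Real.sq_sqrt hq]
      split_ifs <;> ring
    rw [hsq]
    obtain ⟨q1, q2⟩ := k4 k β σ hσ0.le
    cases o
    · simp only [Bool.false_eq_true, if_false] at hεd ⊢
      rw [q2, hεd]
    · simp only [if_true] at hεd ⊢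
      rw [q1, hεd]
  · rw [k3]
    have : 0 ≤ 3 - σ := by linarith
    have : 0 ≤ 1 - β := by linarith
    positivity

theorem kite_ell (hK : KiteStatement) (k : Fin 3) {β σ : ℝ} (j : Fin 3) (hj : j ≠ k) :
    ell j (kp k β σ) = σ * β ∨ ell j (kp k β σ) = σ * (1 - β) := by
  have : j = k + 1 ∨ j = k + 2 := by
    revert hj; revert j k; decide
  obtain ⟨-, e1, e2⟩ := hK.1 k β σ
  rcases this with rfl | rfl
  · exact Or.inl e1
  · exact Or.inr e2

theorem inKite (hK : KiteStatement) (k : Fin 3) {β σ : ℝ} (h0 : 0 ≤ β) (h1 : β ≤ 1)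
    (hσ0 : 0 < σ) (hσ : σ < far β) (w : ℝ) : InKite k (lift (kp k β σ) w).1 := by
  intro j hj
  rw [ell_lift, ell_lift, (hK.1 k β σ).1]
  have hm1 : β ≤ max β (1 - β) := le_max_left _ _
  have hm2 : 1 - β ≤ max β (1 - β) := le_max_right _ _
  have hm : 0 < 1 + max β (1 - β) := by linarith
  rw [far, lt_div_iff₀ hm] at hσ
  rcases kite_ell hK k j hj with h | h <;> rw [h] <;> nlinarith

theorem cwCode (hK : KiteStatement) (hA : ArcStatement) (hF : FloorRegStatement) :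
    CWCodeStatement := by
  intro ρ l hp n c y hy
  have hρ := hp.hρ
  have hρ' := hp.hρ'
  have hl := hp.hl
  have hl' := hp.hl'
  obtain ⟨-, -, -, -, -, hnn⟩ := hF ρ l hp
  match n, c, y, hy with
  | 0, Sum.inl i, y, hy =>
    have e : pl 0 0 = (0 : ℝ) • ev 0 := by
      ext j; fin_cases j <;> simp [pl]
    obtain ⟨h1, h2⟩ := onSheet_ray le_rfl zero_lt_one i 0
    show (onSheet i.castSucc (pl 0 0)).2 = 0 ∧ FS (onSheet i.castSucc (pl 0 0)).1 = 0 ∧
      nn (onSheet i.castSucc (pl 0 0)).1 = 0 ∧ OnSh i (onSheet i.castSucc (pl 0 0)).1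
    refine ⟨rfl, ?_, ?_, ?_⟩
    · rw [e]; exact h1
    · show nn (pl 0 0) = 0
      simp [nn, pl]
    · rw [e]; exact h2
  | 0, Sum.inr (Sum.inl (j, b)), y, hy =>
    show (onSheet (if b then 0 else 1) (ev j)).2 = 0 ∧
      FS (onSheet (if b then 0 else 1) (ev j)).1 = 0 ∧
      InSeg j (onSheet (if b then 0 else 1) (ev j)).1 ∧
      ell j (onSheet (if b then 0 else 1) (ev j)).1 = 0 ∧
      (if b then 0 < (onSheet (if b then 0 else 1) (ev j)).1 2
        else (onSheet (if b then 0 else 1) (ev j)).1 2 < 0)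
    have e : ev j = (1 : ℝ) • ev j := (one_smul _ _).symm
    have h1 := qo_ray_pos zero_le_one le_rfl j
    have h3 := tt_ray_nonneg le_rfl j
    have h4 := inSeg_ray zero_lt_one j
    have h5 := ell_ray 1 j j
    rw [← e] at h1 h3 h5
    simp only [← e] at h4
    cases b
    · simp only [Bool.false_eq_true, if_false]
      have hw : (-√(qo (ev j))) ^ 2 = qo (ev j) := by
        rw [neg_sq]; exact Real.sq_sqrt h1.le
      have e1 : onSheet 1 (ev j) = lift (ev j) (-√(qo (ev j))) := rfl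
      rw [e1]
      refine ⟨rfl, FS_outer _ _ h3 hw, h4 _, ?_, ?_⟩
      · rw [ell_lift, h5, if_pos rfl, sub_self]
      · rw [lift_two]; exact neg_lt_zero.2 (Real.sqrt_pos.2 h1)
    · simp only [if_true]
      have hw : √(qo (ev j)) ^ 2 = qo (ev j) := Real.sq_sqrt h1.le
      have e1 : onSheet 0 (ev j) = lift (ev j) (√(qo (ev j))) := rfl
      rw [e1]
      refine ⟨rfl, FS_outer _ _ h3 hw, h4 _, ?_, ?_⟩
      · rw [ell_lift, h5, if_pos rfl, sub_self]
      · rw [lift_two]; exact Real.sqrt_pos.2 h1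
  | 0, Sum.inr (Sum.inr i), y, hy => rfl
  | 1, Sum.inl (k, d), y, hy =>
    show (wedge ρ true k (if d then 1 else 0) (y 0)).2 = 0 ∧
      FS (wedge ρ true k (if d then 1 else 0) (y 0)).1 = 0 ∧
      InKite k (wedge ρ true k (if d then 1 else 0) (y 0)).1 ∧
      ell (if d then k + 2 else k + 1) (wedge ρ true k (if d then 1 else 0) (y 0)).1 = 0 ∧
      nn (wedge ρ true k (if d then 1 else 0) (y 0)).1 < 4
    have hb0 : (0 : ℝ) ≤ (if d then 1 else 0) := by split_ifs <;> norm_num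
    have hb1 : (if d then (1 : ℝ) else 0) ≤ 1 := by split_ifs <;> norm_num
    obtain ⟨σ, w, hw, s1, s2, s3, s4, s5, s6⟩ := wedge_facts hK hA hρ hρ' true k hb0 hb1
      (mem_ball_one hy 0)
    rw [hw]
    simp only [if_true] at s5
    refine ⟨rfl, FS_outer _ _ s6 s5, inKite hK k hb0 hb1 s1 s2 w, ?_, ?_⟩
    · rw [ell_lift]
      obtain ⟨-, e1, e2⟩ := hK.1 k (if d then (1 : ℝ) else 0) σ
      cases d
      · simp only [Bool.false_eq_true, if_false] at e1 ⊢
        rw [e1, mul_zero]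
      · simp only [if_true] at e2 ⊢
        rw [e2, sub_self, mul_zero]
    · rw [nn_lift, hK.2.1]
      have f2 := (hK.2.2.2.2.2.1 _ hb0 hb1).2
      have : 1 - (if d then (1 : ℝ) else 0) + (if d then (1 : ℝ) else 0) ^ 2 = 1 := by
        split_ifs <;> norm_num
      rw [this]
      nlinarith
  | 1, Sum.inr (Sum.inl (i, j)), y, hy =>
    have hy0 := abs_lt.1 (mem_ball_one hy 0)
    have t0 : 0 < (1 + y 0) / 2 := by linarith [hy0.1]
    have t1 : (1 + y 0) / 2 < 1 := by linarith [hy0.2]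
    obtain ⟨h1, h2⟩ := onSheet_ray t0.le t1 i j
    show (onSheet i.castSucc (((1 + y 0) / 2) • ev j)).2 = 0 ∧
      FS (onSheet i.castSucc (((1 + y 0) / 2) • ev j)).1 = 0 ∧
      InSeg j (onSheet i.castSucc (((1 + y 0) / 2) • ev j)).1 ∧
      0 < ell j (onSheet i.castSucc (((1 + y 0) / 2) • ev j)).1 ∧
      OnSh i (onSheet i.castSucc (((1 + y 0) / 2) • ev j)).1
    refine ⟨rfl, h1, inSeg_ray t0 j _, ?_, h2⟩
    show 0 < ell j (lift (((1 + y 0) / 2) • ev j) _).1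
    rw [ell_lift, ell_ray, if_pos rfl]
    linarith
  | 1, Sum.inr (Sum.inr (Sum.inl j)), y, hy =>
    have hy0 := abs_lt.1 (mem_ball_one hy 0)
    set t : ℝ := 2 * ρ + (1 - 2 * ρ) * ((1 + y 0) / 2) with ht
    have t0 : 2 * ρ < t := by
      have : 0 < (1 - 2 * ρ) * ((1 + y 0) / 2) := by
        apply mul_pos <;> linarith [hy0.1]
      linarith
    have t1 : t < 1 := by
      have : 0 < (1 - 2 * ρ) * (1 - (1 + y 0) / 2) := by
        apply mul_pos <;> linarith [hy0.2]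
      linarith
    have t00 : 0 < t := by linarith
    have h2 := qq_ray_pos t00.le t1.le j
    have h3 := tt_ray_pos t00.le t1 j
    have h4 := Real.sqrt_pos.2 h3
    have e1 : onSheet 3 (t • ev j) = lift (t • ev j) (-√(qq (t • ev j))) := rfl
    have hw : (-√(qq (t • ev j))) ^ 2 = qq (t • ev j) := by
      rw [neg_sq]; exact Real.sq_sqrt h2.le
    show (onSheet 3 (t • ev j)).2 = 0 ∧ FS (onSheet 3 (t • ev j)).1 = 0 ∧
      InSeg j (onSheet 3 (t • ev j)).1 ∧ 0 < ell j (onSheet 3 (t • ev j)).1 ∧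
      mm (onSheet 3 (t • ev j)).1 < 0 ∧ (onSheet 3 (t • ev j)).1 2 < 0 ∧
      4 * ρ ^ 2 < nn (onSheet 3 (t • ev j)).1
    rw [e1]
    refine ⟨rfl, FS_inner _ _ h3.le hw, inSeg_ray t00 j _, ?_, ?_, ?_, ?_⟩
    · rw [ell_lift, ell_ray, if_pos rfl]; linarith
    · rw [mm_inner _ _ hw]; linarith
    · rw [lift_two]; exact neg_lt_zero.2 (Real.sqrt_pos.2 h2)
    · rw [nn_lift, nn_ray]; nlinarith
  | 1, Sum.inr (Sum.inr (Sum.inr (Sum.inl i))), y, hy =>
    have hy0 := abs_lt.1 (mem_ball_one hy 0)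
    have hang : ang i.castSucc < ang i.succ := by
      have hpi := Real.pi_pos
      fin_cases i
      · show (0 : ℝ) < Real.pi / 2; linarith
      · show Real.pi / 2 < Real.pi; linarith
      · show Real.pi < 7 * Real.pi / 6; linarith
      · show 7 * Real.pi / 6 < 11 * Real.pi / 6; linarith
      · show 11 * Real.pi / 6 < 2 * Real.pi; linarith
    refine ⟨ang i.castSucc + (ang i.succ - ang i.castSucc) * ((1 + y 0) / 2), ?_, ?_, rfl⟩
    · have : 0 < (ang i.succ - ang i.castSucc) * ((1 + y 0) / 2) := by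
        apply mul_pos <;> linarith [hy0.1]
      linarith
    · have : 0 < (ang i.succ - ang i.castSucc) * (1 - (1 + y 0) / 2) := by
        apply mul_pos <;> linarith [hy0.2]
      linarith
  | 1, Sum.inr (Sum.inr (Sum.inr (Sum.inr ()))), y, hy =>
    have hy0 := abs_lt.1 (mem_ball_one hy 0)
    refine ⟨?_, _, rfl⟩
    show nn (floorX ρ l !₂[0, -1 + y 0 * (2 * ρ / l)]) < 4 * ρ ^ 2
    rw [hnn]
    have e0 : (!₂[(0 : ℝ), -1 + y 0 * (2 * ρ / l)] : E2) 0 = 0 := rfl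
    have e1 : (!₂[(0 : ℝ), -1 + y 0 * (2 * ρ / l)] : E2) 1 = -1 + y 0 * (2 * ρ / l) := rfl
    rw [e0, e1, mul_zero, Real.cos_zero]
    have e2 : l ^ 2 * ((-1 + y 0 * (2 * ρ / l)) ^ 2 + 2 * (-1 + y 0 * (2 * ρ / l)) * 1 + 1) =
        y 0 ^ 2 * (4 * ρ ^ 2) := by
      field_simp
      ring
    rw [e2]
    have h3 : y 0 ^ 2 < 1 := by nlinarith [hy0.1, hy0.2]
    have h4 : 0 < 4 * ρ ^ 2 := by positivity
    nlinarith
  | 2, Sum.inl (o, k), y, hy =>
    have hy0 := abs_lt.1 (mem_ball_one hy 0)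
    have b0 : 0 < (1 + y 0) / 2 := by linarith [hy0.1]
    have b1 : (1 + y 0) / 2 < 1 := by linarith [hy0.2]
    show (wedge ρ o k ((1 + y 0) / 2) (y 1)).2 = 0 ∧
      FS (wedge ρ o k ((1 + y 0) / 2) (y 1)).1 = 0 ∧
      InKite k (wedge ρ o k ((1 + y 0) / 2) (y 1)).1 ∧
      (wedge ρ o k ((1 + y 0) / 2) (y 1)).1 ∈ PrismO ∧
      (if o then 0 < mm (wedge ρ o k ((1 + y 0) / 2) (y 1)).1
        else mm (wedge ρ o k ((1 + y 0) / 2) (y 1)).1 < 0 ∧
          (0 ≤ (wedge ρ o k ((1 + y 0) / 2) (y 1)).1 2 ∨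
            4 * ρ ^ 2 < nn (wedge ρ o k ((1 + y 0) / 2) (y 1)).1))
    set β : ℝ := (1 + y 0) / 2 with hβ
    obtain ⟨σ, w, hw, s1, s2, s3, s4, s5, s6⟩ := wedge_facts hK hA hρ hρ' o k b0.le b1.le
      (mem_ball_one hy 1)
    rw [hw]
    have f2 := (hK.2.2.2.2.2.1 _ b0.le b1.le).2
    have htt : 0 < tt (kp k β σ) := by
      rw [hK.2.2.1]
      have : 0 < 3 - σ := by linarith
      have : 0 < 1 - β := by linarith
      positivity
    have hsq := Real.sqrt_pos.2 htt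
    have hprism : (lift (kp k β σ) w).1 ∈ PrismO := by
      intro j
      rw [ell_lift]
      by_cases hj : j = k
      · rw [hj, (hK.1 k β σ).1]; linarith
      · have : 0 < 1 - β := by linarith
        rcases kite_ell hK k (β := β) (σ := σ) j hj with h | h <;> rw [h] <;> positivity
    have hmax := inKite hK k b0.le b1.le s1 s2 w
    cases o
    · simp only [Bool.false_eq_true, if_false] at s5 ⊢
      refine ⟨rfl, FS_inner _ _ htt.le s5, hmax, hprism, ?_, ?_⟩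
      · rw [mm_inner _ _ s5]; linarith
      · rcases le_or_gt 0 (y 1) with h | h
        · left
          rw [lift_two]; exact s4 h
        · right
          rw [nn_lift]
          obtain ⟨-, -, -, -, c3⟩ := hA.2.2 ρ hρ hρ'
          exact (c3 k β σ b0.le b1.le s1.le s2.le).1 (s3 rfl h)
    · simp only [if_true] at s5 ⊢
      refine ⟨rfl, FS_outer _ _ htt.le s5, hmax, hprism, ?_⟩
      rw [mm_outer _ _ s5]; linarith
  | 2, Sum.inr (), y, hy =>
    have hy0 := abs_lt.1 (mem_ball_one hy 0)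
    have hy1 := abs_lt.1 (mem_ball_one hy 1)
    have hpi := Real.pi_pos
    refine ⟨?_, Real.pi * (1 + y 0) / 2, _, ?_, ?_, rfl⟩
    · show nn (floorX ρ l !₂[Real.pi * (1 + y 0) / 2,
        -Real.cos (3 * (Real.pi * (1 + y 0) / 2)) +
          y 1 * √((2 * ρ / l) ^ 2 - Real.sin (3 * (Real.pi * (1 + y 0) / 2)) ^ 2)]) < 4 * ρ ^ 2
      rw [hnn]
      set u : ℝ := Real.pi * (1 + y 0) / 2 with hu
      set q : ℝ := √((2 * ρ / l) ^ 2 - Real.sin (3 * u) ^ 2) with hq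
      have e0 : (!₂[u, -Real.cos (3 * u) + y 1 * q] : E2) 0 = u := rfl
      have e1 : (!₂[u, -Real.cos (3 * u) + y 1 * q] : E2) 1 = -Real.cos (3 * u) + y 1 * q := rfl
      rw [e0, e1]
      have hR : 2 ≤ 2 * ρ / l := by
        rw [le_div_iff₀ hl]; linarith
      have hs := Real.sin_sq_add_cos_sq (3 * u)
      have hq2 : q ^ 2 = (2 * ρ / l) ^ 2 - Real.sin (3 * u) ^ 2 := by
        rw [hq]; apply Real.sq_sqrt
        nlinarith [sq_nonneg (Real.cos (3 * u))]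
      have e2 : (-Real.cos (3 * u) + y 1 * q) ^ 2 + 2 * (-Real.cos (3 * u) + y 1 * q) *
          Real.cos (3 * u) + 1 = y 1 ^ 2 * q ^ 2 + Real.sin (3 * u) ^ 2 := by
        linear_combination -hs
      rw [e2, hq2]
      have h3 : y 1 ^ 2 < 1 := by nlinarith [hy1.1, hy1.2]
      have h4 : 0 < (2 * ρ / l) ^ 2 - Real.sin (3 * u) ^ 2 := by
        nlinarith [sq_nonneg (Real.cos (3 * u))]
      have h5 : l ^ 2 * (2 * ρ / l) ^ 2 = 4 * ρ ^ 2 := by
        field_simp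
        ring
      have h6 : 0 < l ^ 2 := by positivity
      calc l ^ 2 * (y 1 ^ 2 * ((2 * ρ / l) ^ 2 - Real.sin (3 * u) ^ 2) + Real.sin (3 * u) ^ 2)
          < l ^ 2 * (1 * ((2 * ρ / l) ^ 2 - Real.sin (3 * u) ^ 2) + Real.sin (3 * u) ^ 2) := by
            gcongr
        _ = 4 * ρ ^ 2 := by rw [← h5]; ring
    · have : 0 < Real.pi * (1 + y 0) := by
        apply mul_pos hpi; linarith [hy0.1]
      linarith
    · have : Real.pi * (1 + y 0) < Real.pi * 2 := by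
        apply mul_lt_mul_of_pos_left _ hpi; linarith [hy0.2]
      linarith
  | n + 3, c, y, hy => exact (c : Empty).elim

end Pool.Agent.Tight.H6.Code
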